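import Pool.Agent.K.MP_fdc1ac_lc.C0

namespace Pool.Agent.Results.MP_fdc1ac_lc.AlephOne

open Cardinal Pool.Agent.P.MP_fdc1ac_lc

theorem result : ∃ (R AR : Type) (le leStar : R → R → Prop) (leFin : AR → AR → Prop)
    (r : ℕ → R → AR), IsTopRamseySpace le leFin r ∧ IsSigmaClosedCoarsening le leStar ∧
      Countable AR ∧ leStar = sepLe le ∧
      IsLeast (pSet leStar) ℵ₁ ∧ IsLeast (tSet leStar) towerNumber :=
  Pool.Agent.P.MP_fdc1ac_lc.Ex2.main

end Pool.Agent.Results.MP_fdc1ac_lc.AlephOne
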