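import Pool.Agent.K.MP_fdc1ac_lc.C1

set_option autoImplicit false

open Pool.Agent.Lib.PosetForcing Pool.Agent.P.MP_fdc1ac_lc

namespace Pool.Agent.Results.MP_fdc1ac_lc.ModelAlephOne

theorem result :
    ∃ (M : Type) (mem : M → M → Prop), IsZFC mem ∧ ∃ (S : In.Data M) (w1 : M),
      IsOmega mem S.w ∧ IsOmega1 mem w1 S.w ∧ In.IsTRS mem S ∧ In.IsSigma mem S ∧
      LeCard mem S.AR S.w ∧
      (∀ A B, mem A S.R → mem B S.R → (App mem S.ls A B ↔ In.Sep mem S S.le A B)) ∧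
      (∀ F, In.SFIP mem S F → LeCard mem F S.w → In.Pseudo mem S F) ∧
      (∃ F, In.SFIP mem S F ∧ ¬ In.Pseudo mem S F ∧ LeCard mem F w1) ∧
      (∃ T, In.Tower mem S T) ∧ ∀ T, In.Tower mem S T → ¬ LeCard mem T w1 :=
  W.final

end Pool.Agent.Results.MP_fdc1ac_lc.ModelAlephOne
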