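import Pool.Agent.K.MP_fdc1ac_lc.C2

namespace Pool.Agent.Results.MP_fdc1ac_lc.ZFCExample

open Cardinal Pool.Agent.P.MP_fdc1ac_lc

theorem result : ∃ (R AR : Type) (le leStar : R → R → Prop) (leFin : AR → AR → Prop)
    (r : ℕ → R → AR), IsTopRamseySpace le leFin r ∧ IsSigmaClosedCoarsening le leStar ∧
      Countable AR ∧ leStar = sepLe le ∧
      ∃ t : Cardinal, IsLeast (pSet leStar) ℵ₀ ∧ IsLeast (tSet leStar) t ∧ ℵ₀ < t :=
  Pool.Agent.P.MP_fdc1ac_lc.Ex1.main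

end Pool.Agent.Results.MP_fdc1ac_lc.ZFCExample
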